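import Pool.Agent.H742Z.GP.Defs2

/-!
The matching property of the level sets, by a fractional matching and the marriage theorem.
-/

set_option autoImplicit false

open scoped ENNReal
open MeasureTheory ProbabilityTheory Filter Topology Set

namespace Pool.Agent.H742Z.GP

universe u

namespace SWp

/-- increase one coordinate -/
def inc {N : ℕ} (z : Fin N → ℕ) (i : Fin N) : Fin N → ℕ := fun j => z j + if j = i then 1 else 0

lemma inc_self {N : ℕ} (z : Fin N → ℕ) (i : Fin N) : inc z i i = z i + 1 := by simp [inc]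

lemma inc_ne {N : ℕ} (z : Fin N → ℕ) {i j : Fin N} (h : j ≠ i) : inc z i j = z j := by
  simp [inc, h]

lemma inc_dec {N : ℕ} (a : Fin N → ℕ) (i : Fin N) (h : 1 ≤ a i) : inc (dec a i) i = a := by
  funext j
  by_cases hj : j = i
  · subst hj
    rw [inc_self]
    simp only [dec, Function.update_self]
    omega
  · rw [inc_ne _ hj]
    simp [dec, hj]

lemma sum_inc {N : ℕ} (z : Fin N → ℕ) (i : Fin N) : ∑ j, inc z i j = ∑ j, z j + 1 := by
  simp [inc, Finset.sum_add_distrib]

lemma ell_inc {N : ℕ} (z : Fin N → ℕ) (i : Fin N) : ell (inc z i) = ell z + (i.val + 1) := by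
  simp [inc, ell, mul_add, Finset.sum_add_distrib]

open Classical in
lemma hall {N ρ : ℕ} (hN : 1 ≤ N) (q : ℕ) (w : (Fin N → ℕ) → Fin N → ℝ)
    (h0 : ∀ a i, ∑ j, a j = ρ → 0 ≤ w a i)
    (h1 : ∀ a, ∑ j, a j = ρ → ∑ i, w a i = 1)
    (h2 : ∀ a i, ∑ j, a j = ρ → w a i ≠ 0 → 2 ≤ a i)
    (h3 : ∀ z : Fin N → ℕ, ∑ j, z j + 1 = ρ →
      ∑ i, (if IsW q (inc z i) then 0 else w (inc z i) i) ≤ 1) :
    ∃ ι : (Fin N → ℕ) → Fin N,
      (∀ a, ∑ i, a i = ρ → ¬ IsW q a → 2 ≤ a (ι a)) ∧
      ∀ a b, ∑ i, a i = ρ → ∑ i, b i = ρ → ¬ IsW q a → ¬ IsW q b →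
        dec a (ι a) = dec b (ι b) → a = b := by
  let I := {a : Fin N → ℕ // ∑ i, a i = ρ ∧ ¬ IsW q a}
  let t : I → Finset (Fin N → ℕ) := fun a =>
    (Finset.univ.filter fun i => 2 ≤ a.1 i).image (dec a.1)
  have hH : ∀ s : Finset I, s.card ≤ (s.biUnion t).card := by
    intro s
    set B := s.biUnion t with hB
    let W : (Fin N → ℕ) × Fin N → ℝ := fun p =>
      if IsW q (inc p.1 p.2) then 0 else w (inc p.1 p.2) p.2
    let P : Finset (I × Fin N) := (s ×ˢ Finset.univ).filter fun p => 2 ≤ p.1.1 p.2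
    let g : I × Fin N → (Fin N → ℕ) × Fin N := fun p => (dec p.1.1 p.2, p.2)
    have hBs : ∀ z ∈ B, ∑ j, z j + 1 = ρ := by
      intro z hz
      rw [hB, Finset.mem_biUnion] at hz
      obtain ⟨a, -, hz⟩ := hz
      simp only [t, Finset.mem_image, Finset.mem_filter, Finset.mem_univ, true_and] at hz
      obtain ⟨i, hi, rfl⟩ := hz
      rw [← sum_inc _ i, inc_dec _ _ (by omega)]
      exact a.2.1
    have e1 : (s.card : ℝ) = ∑ p ∈ P, w p.1.1 p.2 := by
      rw [Finset.sum_filter, Finset.sum_product]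
      rw [Finset.card_eq_sum_ones, Nat.cast_sum]
      refine Finset.sum_congr rfl fun a _ => ?_
      rw [Nat.cast_one, ← h1 a.1 a.2.1]
      refine Finset.sum_congr rfl fun i _ => ?_
      split_ifs with hh
      · rfl
      · by_contra hne
        exact hh (h2 _ _ a.2.1 hne)
    have hinj : Set.InjOn g P := by
      intro p hp p' hp' hg
      simp only [P, Finset.coe_filter, Set.mem_ofPred_eq] at hp hp'
      simp only [g, Prod.mk.injEq] at hg
      obtain ⟨hg1, hg2⟩ := hg
      have e : p.1.1 = p'.1.1 := by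
        rw [← inc_dec p.1.1 p.2 (by omega), ← inc_dec p'.1.1 p'.2 (by omega), hg1, hg2]
      exact Prod.ext (Subtype.ext e) hg2
    have e2 : ∑ p ∈ P, w p.1.1 p.2 = ∑ r ∈ P.image g, W r := by
      rw [Finset.sum_image hinj]
      refine Finset.sum_congr rfl fun p hp => ?_
      simp only [P, Finset.mem_filter] at hp
      simp only [W, g]
      rw [inc_dec _ _ (by omega), if_neg p.1.2.2]
    have e3 : ∑ r ∈ P.image g, W r ≤ ∑ r ∈ B ×ˢ Finset.univ, W r := by
      refine Finset.sum_le_sum_of_subset_of_nonneg ?_ ?_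
      · intro r hr
        rw [Finset.mem_image] at hr
        obtain ⟨p, hp, rfl⟩ := hr
        simp only [P, Finset.mem_filter, Finset.mem_product, Finset.mem_univ, and_true] at hp
        simp only [g, Finset.mem_product, Finset.mem_univ, and_true, hB, Finset.mem_biUnion]
        refine ⟨p.1, hp.1, ?_⟩
        simp only [t, Finset.mem_image, Finset.mem_filter, Finset.mem_univ, true_and]
        exact ⟨p.2, hp.2, rfl⟩
      · intro r hr _
        rw [Finset.mem_product] at hr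
        simp only [W]
        split_ifs
        · exact le_rfl
        · exact h0 _ _ (by rw [sum_inc]; exact hBs _ hr.1)
    have e4 : ∑ r ∈ B ×ˢ Finset.univ, W r ≤ (B.card : ℝ) := by
      rw [Finset.sum_product, Finset.card_eq_sum_ones, Nat.cast_sum]
      refine Finset.sum_le_sum fun z hz => ?_
      rw [Nat.cast_one]
      exact h3 z (hBs z hz)
    have : (s.card : ℝ) ≤ B.card := by rw [e1, e2]; exact e3.trans e4
    exact_mod_cast this
  obtain ⟨f, hf, hft⟩ := (Finset.all_card_le_biUnion_card_iff_exists_injective t).1 hH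
  have hex : ∀ a : I, ∃ i, 2 ≤ a.1 i ∧ dec a.1 i = f a := by
    intro a
    have := hft a
    simp only [t, Finset.mem_image, Finset.mem_filter, Finset.mem_univ, true_and] at this
    exact this
  choose j hj using hex
  refine ⟨fun a => if h : ∑ i, a i = ρ ∧ ¬ IsW q a then j ⟨a, h⟩ else ⟨0, hN⟩, ?_, ?_⟩
  · intro a ha hw
    simp only [dif_pos (And.intro ha hw)]
    exact (hj ⟨a, ha, hw⟩).1
  · intro a b ha hb hwa hwb hab
    simp only [dif_pos (And.intro ha hwa), dif_pos (And.intro hb hwb)] at hab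
    have e1 := (hj ⟨a, ha, hwa⟩).2
    have e2 := (hj ⟨b, hb, hwb⟩).2
    simp only at e1 e2
    rw [e1, e2] at hab
    exact congrArg Subtype.val (hf hab)

/-- distance to the next gadget residue along a line -/
noncomputable def uu {N : ℕ} (q : ℕ) (a : Fin N → ℕ) (i k : Fin N) : ℕ :=
  ((ell a : ZMod q) * (((i.val + 1 : ℕ) : ZMod q) - ((k.val + 1 : ℕ) : ZMod q))⁻¹).val

lemma sub_ne {N q : ℕ} (hq : 3 * N < q) {i k : Fin N} (h : i ≠ k) :
    (((i.val + 1 : ℕ) : ZMod q) - ((k.val + 1 : ℕ) : ZMod q)) ≠ 0 := by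
  intro h0
  rw [sub_eq_zero, ZMod.natCast_eq_natCast_iff'] at h0
  have hi := i.2
  have hk := k.2
  rw [Nat.mod_eq_of_lt (by omega), Nat.mod_eq_of_lt (by omega)] at h0
  exact h (Fin.ext (by omega))

lemma uu_lt {N q : ℕ} (hp : q.Prime) (a : Fin N → ℕ) (i k : Fin N) : uu q a i k < q := by
  have : NeZero q := ⟨hp.ne_zero⟩
  exact ZMod.val_lt _

lemma uu_zero {N q : ℕ} (a : Fin N → ℕ) (i k : Fin N) (h : ell a % q = 0) : uu q a i k = 0 := by
  have : (ell a : ZMod q) = 0 := by
    rw [ZMod.natCast_eq_zero_iff]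
    exact Nat.dvd_of_mod_eq_zero h
  simp [uu, this]

lemma uu_diag {N q : ℕ} (hp : q.Prime) (a : Fin N → ℕ) (i : Fin N) : uu q a i i = 0 := by
  have : Fact q.Prime := ⟨hp⟩
  simp [uu]

lemma ell_of_uu {N q : ℕ} (hp : q.Prime) (hq : 3 * N < q) (a : Fin N → ℕ) {i k : Fin N}
    (hik : i ≠ k) (h : uu q a i k = 0) : ell a % q = 0 := by
  have : Fact q.Prime := ⟨hp⟩
  rw [uu, ZMod.val_eq_zero, mul_eq_zero] at h
  rcases h with h | h
  · rw [ZMod.natCast_eq_zero_iff] at h
    exact Nat.mod_eq_zero_of_dvd h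
  · exact absurd (inv_eq_zero.1 h) (sub_ne hq hik)

lemma uu_step {N q : ℕ} (hp : q.Prime) (hq : 3 * N < q) (z : Fin N → ℕ) {i k : Fin N}
    (hik : i ≠ k) (h : uu q (inc z i) i k ≠ 0) :
    uu q (inc z i) i k = uu q (inc z k) i k + 1 := by
  have : Fact q.Prime := ⟨hp⟩
  have hd := sub_ne hq hik
  have e : (ell (inc z i) : ZMod q) *
      (((i.val + 1 : ℕ) : ZMod q) - ((k.val + 1 : ℕ) : ZMod q))⁻¹ =
      (ell (inc z k) : ZMod q) *
      (((i.val + 1 : ℕ) : ZMod q) - ((k.val + 1 : ℕ) : ZMod q))⁻¹ + 1 := by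
    rw [ell_inc, ell_inc, Nat.cast_add (ell z), Nat.cast_add (ell z)]
    field_simp
    ring
  have hlt := uu_lt hp (inc z k) i k
  unfold uu at h hlt ⊢
  rw [e] at h ⊢
  rw [ZMod.val_add, ZMod.val_one] at h ⊢
  apply Nat.mod_eq_of_lt
  by_contra hc
  apply h
  have : ((ell (inc z k) : ZMod q) *
      (((i.val + 1 : ℕ) : ZMod q) - ((k.val + 1 : ℕ) : ZMod q))⁻¹).val + 1 = q := by omega
  rw [this, Nat.mod_self]

lemma uniq {N q : ℕ} (hq : 3 * N < q) (z : Fin N → ℕ) {i k : Fin N}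
    (hi : ell (inc z i) % q = 0) (hk : ell (inc z k) % q = 0) : i = k := by
  by_contra hik
  apply sub_ne hq hik
  have e1 : (ell (inc z i) : ZMod q) = 0 := by
    rw [ZMod.natCast_eq_zero_iff]
    exact Nat.dvd_of_mod_eq_zero hi
  have e2 : (ell (inc z k) : ZMod q) = 0 := by
    rw [ZMod.natCast_eq_zero_iff]
    exact Nat.dvd_of_mod_eq_zero hk
  rw [ell_inc, Nat.cast_add (ell z)] at e1 e2
  linear_combination e1 - e2

/-- total excess above the threshold -/
def TT {N : ℕ} (q : ℕ) (a : Fin N → ℕ) : ℕ := ∑ i, (a i - (q + 2))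

lemma TT_le {N : ℕ} (q : ℕ) (a : Fin N → ℕ) : TT q a ≤ ∑ i, a i :=
  Finset.sum_le_sum fun _ _ => Nat.sub_le _ _

lemma le_TT {N : ℕ} (q : ℕ) (a : Fin N → ℕ) : ∑ i, a i ≤ TT q a + N * (q + 2) := by
  have : ∑ i, a i ≤ ∑ i : Fin N, ((a i - (q + 2)) + (q + 2)) :=
    Finset.sum_le_sum fun _ _ => by omega
  rw [Finset.sum_add_distrib] at this
  simpa [TT] using this

lemma TT_inc {N : ℕ} (q : ℕ) (z : Fin N → ℕ) (i : Fin N) (h : q + 2 ≤ z i) :
    TT q (inc z i) = TT q z + 1 := by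
  have : ∀ j, inc z i j - (q + 2) = (z j - (q + 2)) + if j = i then 1 else 0 := by
    intro j
    by_cases hj : j = i
    · subst hj
      rw [inc_self, if_pos rfl]
      omega
    · rw [inc_ne _ hj, if_neg hj, add_zero]
  simp only [TT, this, Finset.sum_add_distrib]
  simp

/-- the base weights -/
noncomputable def w0 {N : ℕ} (q : ℕ) (a : Fin N → ℕ) (i : Fin N) : ℝ :=
  ((a i - (q + 2) : ℕ) : ℝ) / (TT q a : ℝ)

/-- the large threshold -/
def hh (N q : ℕ) : ℕ := q + 2 + (2 * N * N * q + 2 * N)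

/-- activity of a pair of directions -/
def act {N : ℕ} (q : ℕ) (a : Fin N → ℕ) (i k : Fin N) : Prop :=
  q + 2 ≤ a k + uu q a i k ∧ hh N q + uu q a i k ≤ a i

open Classical in
/-- the moved mass -/
noncomputable def ss {N : ℕ} (q : ℕ) (ε : ℝ) (a : Fin N → ℕ) (i k : Fin N) : ℝ :=
  if act q a i k then ε * uu q a i k else 0

/-- the weights -/
noncomputable def ww {N : ℕ} (q : ℕ) (ε : ℝ) (a : Fin N → ℕ) (i : Fin N) : ℝ :=
  w0 q a i - ∑ k, ss q ε a i k + ∑ k, ss q ε a k i

lemma ss_nonneg {N q : ℕ} {ε : ℝ} (hε : 0 ≤ ε) (a : Fin N → ℕ) (i k : Fin N) :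
    0 ≤ ss q ε a i k := by
  unfold ss
  split_ifs
  · positivity
  · exact le_rfl

lemma ss_le {N q : ℕ} (hp : q.Prime) {ε : ℝ} (hε : 0 ≤ ε) (a : Fin N → ℕ) (i k : Fin N) :
    ss q ε a i k ≤ ε * q := by
  unfold ss
  split_ifs
  · have : (uu q a i k : ℝ) ≤ q := by exact_mod_cast (uu_lt hp a i k).le
    exact mul_le_mul_of_nonneg_left this hε
  · positivity

lemma sum_ss_le {N q : ℕ} (hp : q.Prime) {ε : ℝ} (hε : 0 ≤ ε) (a : Fin N → Fin N → ℕ)
    (i : Fin N) : ∑ k, ss q ε (a k) i k ≤ N * (ε * q) := by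
  have : ∑ k, ss q ε (a k) i k ≤ ∑ _k : Fin N, ε * q :=
    Finset.sum_le_sum fun k _ => ss_le hp hε _ i k
  simpa using this

lemma w0_nonneg {N q : ℕ} (a : Fin N → ℕ) (i : Fin N) : 0 ≤ w0 q a i := by
  unfold w0
  positivity

lemma w0_big {N q ρ : ℕ} (a : Fin N → ℕ) (i : Fin N) (ha : ∑ j, a j = ρ) (h : hh N q ≤ a i)
    (hN : 1 ≤ N) : 2 * N / ρ * (N * q + 1) ≤ w0 q a i := by
  unfold w0
  have h1 : a i - (q + 2) ≤ TT q a :=
    Finset.single_le_sum (f := fun j => a j - (q + 2)) (fun _ _ => Nat.zero_le _)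
      (Finset.mem_univ i)
  have h2 : 2 * N * N * q + 2 * N ≤ a i - (q + 2) := by
    unfold hh at h
    omega
  have h3 : TT q a ≤ ρ := ha ▸ TT_le q a
  have h4 : 0 < TT q a := by omega
  have h5 : (0 : ℝ) < TT q a := by exact_mod_cast h4
  have h6 : (TT q a : ℝ) ≤ ρ := by exact_mod_cast h3
  have h7 : (2 * N * N * q + 2 * N : ℝ) ≤ ((a i - (q + 2) : ℕ) : ℝ) := by exact_mod_cast h2
  calc (2 * N / ρ * (N * q + 1) : ℝ) = (2 * N * N * q + 2 * N) / ρ := by ring
    _ ≤ ((a i - (q + 2) : ℕ) : ℝ) / (TT q a : ℝ) := by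
      apply div_le_div₀ (by positivity) h7 h5 h6

lemma ww_nonneg {N q ρ : ℕ} (hp : q.Prime) (hN : 1 ≤ N) (a : Fin N → ℕ) (i : Fin N)
    (ha : ∑ j, a j = ρ) : 0 ≤ ww q (2 * N / ρ) a i := by
  have hε : (0 : ℝ) ≤ 2 * N / ρ := by positivity
  have h1 : 0 ≤ ∑ k, ss q (2 * N / ρ) a k i := Finset.sum_nonneg fun k _ => ss_nonneg hε a k i
  have h2 : ∑ k, ss q (2 * N / ρ) a i k ≤ w0 q a i := by
    by_cases h : hh N q ≤ a i
    · have := w0_big a i ha h hN
      have h3 := sum_ss_le hp hε (fun _ => a) i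
      nlinarith
    · have : ∑ k, ss q (2 * N / ρ) a i k = 0 := by
        refine Finset.sum_eq_zero fun k _ => ?_
        unfold ss
        rw [if_neg]
        intro hc
        exact h (le_trans (Nat.le_add_right _ _) hc.2)
      rw [this]
      exact w0_nonneg a i
  unfold ww
  linarith

lemma sum_ww {N q : ℕ} (ε : ℝ) (a : Fin N → ℕ) (h : 0 < TT q a) : ∑ i, ww q ε a i = 1 := by
  unfold ww
  rw [Finset.sum_add_distrib, Finset.sum_sub_distrib, Finset.sum_comm (f := fun i k => ss q ε a k i)]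
  have h5 : (0 : ℝ) < TT q a := by exact_mod_cast h
  have : ∑ i, w0 q a i = 1 := by
    unfold w0
    rw [← Finset.sum_div, ← Nat.cast_sum]
    exact div_self h5.ne'
  rw [this]
  ring

lemma two_le {N q : ℕ} (hp : q.Prime) (ε : ℝ) (a : Fin N → ℕ) (i : Fin N)
    (h : ww q ε a i ≠ 0) : 2 ≤ a i := by
  by_contra hc
  apply h
  have e0 : w0 q a i = 0 := by
    unfold w0
    have : a i - (q + 2) = 0 := by omega
    rw [this]
    simp
  have e1 : ∑ k, ss q ε a i k = 0 := by
    refine Finset.sum_eq_zero fun k _ => ?_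
    unfold ss
    rw [if_neg]
    intro hk
    have := hk.2
    unfold hh at this
    omega
  have e2 : ∑ k, ss q ε a k i = 0 := by
    refine Finset.sum_eq_zero fun k _ => ?_
    unfold ss
    rw [if_neg]
    intro hk
    have := hk.1
    have := uu_lt hp a k i
    omega
  unfold ww
  rw [e0, e1, e2]
  ring

lemma sum_w0 {N q : ℕ} (z : Fin N → ℕ) :
    ∑ i, w0 q (inc z i) i =
      ((TT q z : ℝ) + (Finset.univ.filter fun i => q + 2 ≤ z i).card) / (TT q z + 1) := by
  have : ∀ i, w0 q (inc z i) i =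
      (((z i - (q + 2) : ℕ) : ℝ) + if q + 2 ≤ z i then 1 else 0) / (TT q z + 1) := by
    intro i
    unfold w0
    rw [inc_self]
    split_ifs with h
    · rw [TT_inc q z i h]
      have : z i + 1 - (q + 2) = z i - (q + 2) + 1 := by omega
      rw [this]
      push_cast
      rfl
    · have e1 : z i + 1 - (q + 2) = 0 := by omega
      have e2 : z i - (q + 2) = 0 := by omega
      rw [e1, e2]
      simp
  simp only [this]
  rw [← Finset.sum_div, Finset.sum_add_distrib, ← Nat.cast_sum, Finset.sum_boole]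
  rfl

open Classical in
lemma br_eq {N q : ℕ} (hp : q.Prime) (hq : 3 * N < q) (ε : ℝ) (z : Fin N → ℕ) {i k : Fin N}
    (hik : i ≠ k) (h : uu q (inc z i) i k ≠ 0) :
    ss q ε (inc z k) i k - ss q ε (inc z i) i k = if act q (inc z i) i k then -ε else 0 := by
  have e := uu_step hp hq z hik h
  have hiff : act q (inc z k) i k ↔ act q (inc z i) i k := by
    unfold act
    rw [e, inc_self, inc_self, inc_ne z hik, inc_ne z hik.symm]
    omega
  unfold ss
  by_cases ha : act q (inc z i) i k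
  · rw [if_pos ha, if_pos ha, if_pos (hiff.2 ha), e]
    push_cast
    ring
  · rw [if_neg ha, if_neg ha, if_neg (fun h' => ha (hiff.1 h'))]
    ring

lemma br_pos {N q : ℕ} (hp : q.Prime) (hq : 3 * N < q) {ε : ℝ} (hε : 0 ≤ ε) (z : Fin N → ℕ)
    (i k : Fin N) (h : ¬ (IsW q (inc z i) ∧ hh N q ≤ z i)) :
    ss q ε (inc z k) i k - ss q ε (inc z i) i k ≤ 0 := by
  by_cases hik : i = k
  · subst hik
    simp
  by_cases hu : uu q (inc z i) i k = 0
  · have h1 := ss_nonneg (q := q) hε (inc z i) i k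
    have h2 : ss q ε (inc z k) i k = 0 := by
      unfold ss
      rw [if_neg]
      intro ha
      apply h
      obtain ⟨a1, a2⟩ := ha
      rw [inc_self] at a1
      rw [inc_ne z hik] at a2
      have := uu_lt hp (inc z k) i k
      refine ⟨⟨ell_of_uu hp hq _ hik hu, i, k, hik, ?_, ?_⟩, by omega⟩
      · rw [inc_self]
        unfold hh at a2
        omega
      · rw [inc_ne z (Ne.symm hik)]
        omega
    linarith
  · rw [br_eq hp hq ε z hik hu]
    split_ifs
    · linarith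
    · exact le_rfl

lemma col_eq {N q : ℕ} (ε : ℝ) (z : Fin N → ℕ) :
    ∑ i, ww q ε (inc z i) i = ∑ i, w0 q (inc z i) i +
      ∑ i, ∑ k, (ss q ε (inc z k) i k - ss q ε (inc z i) i k) := by
  unfold ww
  rw [Finset.sum_add_distrib, Finset.sum_sub_distrib,
    Finset.sum_comm (f := fun i k => ss q ε (inc z i) k i)]
  simp only [Finset.sum_sub_distrib]
  ring

open Classical in
lemma col {N q ρ : ℕ} (hp : q.Prime) (hq : 3 * N < q) (hN : 1 ≤ N)
    (hρ : N * (hh N q + q) + 1 + 2 * (N * (q + 2)) ≤ ρ) (z : Fin N → ℕ)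
    (hz : ∑ j, z j + 1 = ρ) :
    ∑ i, (if IsW q (inc z i) then 0 else ww q (2 * N / ρ) (inc z i) i) ≤ 1 := by
  set ε : ℝ := 2 * N / ρ with hεd
  have hε : 0 ≤ ε := by positivity
  have hw : ∀ i, 0 ≤ ww q ε (inc z i) i := fun i =>
    ww_nonneg hp hN _ i (by rw [sum_inc]; exact hz)
  set n := (Finset.univ.filter fun i => q + 2 ≤ z i).card with hn
  have hnN : n ≤ N := by
    have := Finset.card_le_univ (Finset.univ.filter fun i => q + 2 ≤ z i)
    simpa using this
  have hT : ρ ≤ 2 * (TT q z + 1) := by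
    have := le_TT q z
    omega
  have hρ0 : (0 : ℝ) < ρ := by
    have : 0 < ρ := by omega
    exact_mod_cast this
  have hT1 : (0 : ℝ) < TT q z + 1 := by positivity
  have hS : ∑ i, w0 q (inc z i) i ≤ 1 + ε := by
    rw [sum_w0, ← hn, div_le_iff₀ hT1]
    have h1 : (n : ℝ) ≤ N := by exact_mod_cast hnN
    have h2 : (ρ : ℝ) ≤ 2 * (TT q z + 1) := by exact_mod_cast hT
    have h3 : (N : ℝ) ≤ ε * (TT q z + 1) := by
      rw [hεd, div_mul_eq_mul_div, le_div_iff₀ hρ0]
      have : (0 : ℝ) ≤ N := by positivity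
      nlinarith
    linarith
  have hsplit : ∑ i, (if IsW q (inc z i) then 0 else ww q ε (inc z i) i) =
      ∑ i, ww q ε (inc z i) i - ∑ i, (if IsW q (inc z i) then ww q ε (inc z i) i else 0) := by
    rw [← Finset.sum_sub_distrib]
    refine Finset.sum_congr rfl fun i _ => ?_
    split_ifs <;> ring
  have hnn : ∀ i, 0 ≤ (if IsW q (inc z i) then ww q ε (inc z i) i else 0) := by
    intro i
    split_ifs
    · exact hw i
    · exact le_rfl
  rw [hsplit, col_eq]
  by_cases hc : ∃ i, IsW q (inc z i) ∧ hh N q ≤ z i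
  · obtain ⟨i0, hW, hi0⟩ := hc
    have h1 : ww q ε (inc z i0) i0 ≤
        ∑ i, (if IsW q (inc z i) then ww q ε (inc z i) i else 0) := by
      have := Finset.single_le_sum (f := fun i => if IsW q (inc z i) then ww q ε (inc z i) i else 0)
        (fun i _ => hnn i) (Finset.mem_univ i0)
      simpa [hW] using this
    have h2 : ww q ε (inc z i0) i0 = w0 q (inc z i0) i0 := by
      unfold ww
      have : ∀ i k, ss q ε (inc z i0) i k = 0 := by
        intro i k
        unfold ss
        rw [uu_zero _ _ _ hW.1]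
        simp
      simp [this]
    have h3 := w0_big (q := q) (ρ := ρ) (inc z i0) i0 (by rw [sum_inc]; exact hz)
      (by rw [inc_self]; omega) hN
    have h4 : ∑ i, ∑ k, (ss q ε (inc z k) i k - ss q ε (inc z i) i k) ≤ N * (ε * q) := by
      rw [← Finset.add_sum_erase _ _ (Finset.mem_univ i0)]
      have a1 : ∑ i ∈ Finset.univ.erase i0,
          ∑ k, (ss q ε (inc z k) i k - ss q ε (inc z i) i k) ≤ 0 := by
        refine Finset.sum_nonpos fun i hi => Finset.sum_nonpos fun k _ => ?_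
        apply br_pos hp hq hε
        intro hi'
        exact (Finset.ne_of_mem_erase hi) (uniq hq z hi'.1.1 hW.1)
      have a2 : ∑ k, (ss q ε (inc z k) i0 k - ss q ε (inc z i0) i0 k) ≤
          ∑ k, ss q ε (inc z k) i0 k :=
        Finset.sum_le_sum fun k _ => by linarith [ss_nonneg (q := q) hε (inc z i0) i0 k]
      have a3 := sum_ss_le hp hε (fun k => inc z k) i0
      linarith
    rw [← hεd] at h3
    nlinarith
  · have hB : ∀ i k, ss q ε (inc z k) i k - ss q ε (inc z i) i k ≤ 0 := fun i k =>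
      br_pos hp hq hε z i k fun h => hc ⟨i, h⟩
    have h0 : 0 ≤ ∑ i, (if IsW q (inc z i) then ww q ε (inc z i) i else 0) :=
      Finset.sum_nonneg fun i _ => hnn i
    by_cases hn1 : n ≤ 1
    · have h1 : ∑ i, w0 q (inc z i) i ≤ 1 := by
        rw [sum_w0, ← hn, div_le_one hT1]
        have : (n : ℝ) ≤ 1 := by exact_mod_cast hn1
        linarith
      have h2 : ∑ i, ∑ k, (ss q ε (inc z k) i k - ss q ε (inc z i) i k) ≤ 0 :=
        Finset.sum_nonpos fun i _ => Finset.sum_nonpos fun k _ => hB i k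
      linarith
    · obtain ⟨i, hi⟩ : ∃ i, hh N q + q ≤ z i := by
        by_contra hcon
        push Not at hcon
        have : ∑ j, z j < ∑ _j : Fin N, (hh N q + q) :=
          Finset.sum_lt_sum_of_nonempty ⟨⟨0, hN⟩, Finset.mem_univ _⟩ fun j _ => hcon j
        simp only [Finset.sum_const, Finset.card_univ, Fintype.card_fin, smul_eq_mul] at this
        omega
      obtain ⟨k, hk, hki⟩ := Finset.exists_mem_ne (s := Finset.univ.filter fun i => q + 2 ≤ z i)
        (by omega) i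
      rw [Finset.mem_filter] at hk
      have hk2 := hk.2
      have hu : uu q (inc z i) i k ≠ 0 := by
        intro hu
        apply hc
        refine ⟨i, ⟨ell_of_uu hp hq _ hki.symm hu, i, k, hki.symm, ?_, ?_⟩, by omega⟩
        · rw [inc_self]
          unfold hh at hi
          omega
        · rw [inc_ne z hki]
          omega
      have ha : act q (inc z i) i k := by
        have := uu_lt hp (inc z i) i k
        unfold act
        rw [inc_self, inc_ne z hki]
        omega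
      have e := br_eq hp hq ε z hki.symm hu
      rw [if_pos ha] at e
      have h2 : ∑ i, ∑ k, (ss q ε (inc z k) i k - ss q ε (inc z i) i k) ≤ -ε := by
        rw [← Finset.add_sum_erase _ _ (Finset.mem_univ i),
          ← Finset.add_sum_erase _ _ (Finset.mem_univ k), e]
        have a1 : ∑ i' ∈ Finset.univ.erase i,
            ∑ k, (ss q ε (inc z k) i' k - ss q ε (inc z i') i' k) ≤ 0 :=
          Finset.sum_nonpos fun i' _ => Finset.sum_nonpos fun k _ => hB i' k
        have a2 : ∑ k' ∈ Finset.univ.erase k,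
            (ss q ε (inc z k') i k' - ss q ε (inc z i) i k') ≤ 0 :=
          Finset.sum_nonpos fun k' _ => hB i k'
        linarith
      linarith

end SWp

theorem sw (N : ℕ) (hN : 1 ≤ N) : ∃ q ρ₀ : ℕ, 3 * N < q ∧ SW N q ρ₀ := by
  obtain ⟨q, hq, hp⟩ := Nat.exists_infinite_primes (3 * N + 1)
  have hq' : 3 * N < q := hq
  refine ⟨q, N * (SWp.hh N q + q) + 1 + 2 * (N * (q + 2)), hq', fun ρ hρ => ?_⟩
  refine SWp.hall hN q (SWp.ww q (2 * N / ρ)) (fun a i ha => SWp.ww_nonneg hp hN a i ha)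
    (fun a ha => SWp.sum_ww _ a ?_) (fun a i _ h => SWp.two_le hp _ a i h)
    (fun z hz => SWp.col hp hq' hN hρ z hz)
  have := SWp.le_TT q a
  omega

end Pool.Agent.H742Z.GP
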